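import Pool.Agent.N176.OW.Stm2
import Pool.Agent.W66.QE

set_option autoImplicit false

/-!
# Decorrelation of `ff q` and slowly varying functions, variation up to `exp (κ Y)`
-/

open Filter Topology Set MeasureTheory Metric
open scoped Real

namespace Pool.Agent.N618.OW

open Pool.Agent.H305R2 (ff NN roughPart measurable_ff ff_nonneg ff_le_one LL)
open Pool.Agent.W66 (smoothing cv cv_continuous gg_split)
open Pool.Agent.N176.OW

lemma ev_Y' (c : ℝ) (hc : 0 < c) : ∀ᶠ Y : ℝ in atTop, 1 ≤ Y ∧ Real.exp (-(c * Y)) ≤ 1 / Y ^ 2 := by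
  have h1 : Tendsto (fun Y : ℝ => c * Y) atTop atTop := tendsto_id.const_mul_atTop hc
  have h2 := (Real.tendsto_pow_mul_exp_neg_atTop_nhds_zero 2).comp h1
  have h3 : ∀ᶠ Y : ℝ in atTop, (c * Y) ^ 2 * Real.exp (-(c * Y)) < c ^ 2 :=
    h2.eventually_lt_const (by positivity)
  filter_upwards [h3, eventually_ge_atTop 1] with Y h4 h5
  refine ⟨h5, ?_⟩
  rw [le_div_iff₀ (by positivity)]
  have h6 : c ^ 2 * (Y ^ 2 * Real.exp (-(c * Y))) < c ^ 2 * 1 := by
    rw [mul_one]
    calc c ^ 2 * (Y ^ 2 * Real.exp (-(c * Y))) = (c * Y) ^ 2 * Real.exp (-(c * Y)) := by ring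
      _ < c ^ 2 := h4
  have h7 := lt_of_mul_lt_mul_left h6 (by positivity)
  linarith

theorem fa (hcv : S_CV) : S_FA := by
  intro c1 hc1
  obtain ⟨cc, K, hcc, hK, P, hP⟩ := hcv c1 hc1
  obtain ⟨Y1, hY1⟩ := (ev_Y' (cc / 2) (by positivity)).exists_forall_of_atTop
  have hlin : ∀ᶠ q : ℕ in atTop, Y1 ≤ c1 * q :=
    (tendsto_natCast_atTop_atTop.const_mul_atTop hc1).eventually_ge_atTop _
  have hlogq : ∀ᶠ q : ℕ in atTop, 1 ≤ Real.log q :=
    (Real.tendsto_log_atTop.comp tendsto_natCast_atTop_atTop).eventually_ge_atTop 1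
  obtain ⟨P2, hP2⟩ := (hlin.and (hlogq.and (eventually_ge_atTop 1))).exists_forall_of_atTop
  refine ⟨cc / 2, 2 * (K + 7 / c1 ^ 2), by positivity, by positivity, max P P2,
    fun q hq φ0 Y M hφ0m hφ01 hYq hM hmod => ?_⟩
  obtain ⟨b1, b2, b3⟩ := hP2 q ((le_max_right _ _).trans hq)
  obtain ⟨μ, hμ⟩ := hP q ((le_max_left _ _).trans hq) Y hYq
  obtain ⟨d1, d2⟩ := hY1 Y (b1.trans hYq)
  have hY0 : 0 < Y := by linarith
  have hq0 : (0 : ℝ) < q := by exact_mod_cast b3
  obtain ⟨h, hh⟩ : ∃ h : ℝ, h = Real.exp (-(cc * Y)) := ⟨_, rfl⟩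
  have hh0 : 0 < h := by rw [hh]; exact Real.exp_pos _
  have hY2 : 0 < 1 / Y ^ 2 := by positivity
  have hhe : h ≤ Real.exp (-(cc / 2 * Y)) := by
    rw [hh]
    apply Real.exp_le_exp.2
    have : 0 < cc * Y := by positivity
    linarith
  have a1 : h ≤ 1 / Y ^ 2 := hhe.trans d2
  have hh1 : h ≤ 1 := a1.trans (by
    rw [div_le_one (by positivity)]
    nlinarith)
  have hYinv : 1 / Y ^ 2 ≤ 1 / c1 ^ 2 * (1 / (q : ℝ) ^ 2) := by
    have e : 1 / c1 ^ 2 * (1 / (q : ℝ) ^ 2) = 1 / (c1 * q) ^ 2 := by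
      rw [mul_pow]
      field_simp
    rw [e]
    apply one_div_le_one_div_of_le (by positivity)
    exact pow_le_pow_left₀ (by positivity) hYq 2
  -- the bound for one window
  have key : ∀ w : ℝ, 0 ≤ w → w ≤ 1 → |∫ u in (Y + w)..(Y + w + 1), φ0 (u - w) * (ff q u - μ)| ≤
      (K + 7 / c1 ^ 2) * (Real.log q / q ^ 2) := by
    intro w hw0 hw1
    have hφ : Measurable fun u => φ0 (u - w) := hφ0m.comp (by fun_prop)
    have h1 := smoothing q hh0 (fun u => φ0 (u - w)) hφ
      (fun x => hφ01 _) (Y + w) μ (h * Real.exp M + 4 * h) (by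
        intro v hv
        have h2 := hmod h hh0.le hh1 v hv
        have h3 := intervalIntegral.integral_comp_sub_right (a := Y + w) (b := Y + w + 1)
          (fun u => |φ0 (u + v) - φ0 u|) w
        have e1 : Y + w - w = Y := by ring
        have e2 : Y + w + 1 - w = Y + 1 := by ring
        rw [e1, e2] at h3
        rw [← h3] at h2
        have e3 : ∀ u : ℝ, u - w + v = u + v - w := fun u => by ring
        simp only [e3] at h2
        exact h2) (cv_continuous q hh0)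
    refine h1.trans ?_
    have h2 := hμ (Y + w) (by linarith) (by linarith)
    rw [← hh] at h2
    have h3 : h * Real.exp M ≤ 1 / Y ^ 2 := by
      refine le_trans ?_ d2
      rw [hh, ← Real.exp_add]
      exact Real.exp_le_exp.2 (by linarith)
    have h4 : 1 / (q : ℝ) ^ 2 ≤ Real.log q / q ^ 2 := by gcongr
    have h5 : 7 * (1 / Y ^ 2) ≤ 7 / c1 ^ 2 * (Real.log q / q ^ 2) := by
      calc 7 * (1 / Y ^ 2) ≤ 7 * (1 / c1 ^ 2 * (Real.log q / q ^ 2)) := by
            apply mul_le_mul_of_nonneg_left _ (by norm_num)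
            exact hYinv.trans (mul_le_mul_of_nonneg_left h4 (by positivity))
        _ = _ := by ring
    have e : (K + 7 / c1 ^ 2) * (Real.log q / q ^ 2) =
      K * (Real.log q / q ^ 2) + 7 / c1 ^ 2 * (Real.log q / q ^ 2) := by ring
    rw [e]
    linarith
  rw [gg_split q φ0 hφ0m hφ01 Y μ]
  have k0 := key 0 le_rfl zero_le_one
  simp only [add_zero, sub_zero] at k0
  have k1 : |∫ w in (0 : ℝ)..1, ∫ u in (Y + w)..(Y + w + 1), φ0 (u - w) * (ff q u - μ)| ≤
      (K + 7 / c1 ^ 2) * (Real.log q / q ^ 2) := by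
    have := intervalIntegral.norm_integral_le_of_norm_le_const (a := (0 : ℝ)) (b := 1)
      (f := fun w => ∫ u in (Y + w)..(Y + w + 1), φ0 (u - w) * (ff q u - μ))
      (C := (K + 7 / c1 ^ 2) * (Real.log q / q ^ 2)) (fun w hw => by
        rw [Set.uIoc_of_le zero_le_one] at hw
        rw [Real.norm_eq_abs]
        exact key w hw.1.le hw.2)
    rw [Real.norm_eq_abs] at this
    simpa using this
  refine (abs_sub _ _).trans ?_
  linarith

end Pool.Agent.N618.OW
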