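import Pool.Agent.N176.OW.Stm2
import Pool.Agent.W66.QE
import Pool.Agent.TH888.R.MeanU

set_option autoImplicit false

/-!
# The mean over the cells of the first digits
-/

open Filter Topology Set MeasureTheory Metric
open scoped Real

namespace Pool.Agent.N618.OW

open Pool.Agent.H305R2 (ff NN roughPart measurable_ff ff_nonneg ff_le_one LL gg)
open Pool.Agent.W66 (ii_of_bdd)
open Pool.Agent.N176.OW
open Pool.Agent.N176.GP (cnt)

theorem ii_exp (f : ℝ → ℝ) (hf : Measurable f) (hb : ∀ x, |f x| ≤ 1) (a b : ℝ) :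
    IntervalIntegrable (fun u => Real.exp u * f u) volume a b :=
  (ii_of_bdd hf hb a b).continuousOn_mul Real.continuous_exp.continuousOn

theorem int_piece (q n : ℕ) (hn : 1 ≤ n) :
    ∫ u in (Real.log n)..(Real.log (n + 1 : ℕ)), Real.exp u * ff q u =
      if (roughPart q n).Prime then 1 else 0 := by
  have hn0 : (0 : ℝ) < n := by exact_mod_cast hn
  have hle : Real.log n ≤ Real.log (n + 1 : ℕ) := Real.log_le_log hn0 (by push_cast; linarith)
  rw [intervalIntegral.integral_of_le hle]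
  have h1 : ∫ u in Set.Ioc (Real.log n) (Real.log (n + 1 : ℕ)), Real.exp u * ff q u =
      ∫ u in Set.Ioc (Real.log n) (Real.log (n + 1 : ℕ)), Real.exp u *
        (if (roughPart q n).Prime then (1 : ℝ) else 0) := by
    apply setIntegral_congr_fun measurableSet_Ioc
    intro u hu
    have h2 : (n : ℝ) < Real.exp u := (Real.log_lt_iff_lt_exp hn0).1 hu.1
    have h3 : Real.exp u ≤ (n + 1 : ℕ) := (Real.le_log_iff_exp_le (by positivity)).1 hu.2
    have h4 : ⌈Real.exp u⌉₊ = n + 1 := by
      rw [Nat.ceil_eq_iff (by omega)]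
      exact ⟨by simpa using h2, h3⟩
    have h5 : NN u = n := by unfold NN; rw [h4]; rfl
    simp only [ff, h5]
  rw [h1, ← intervalIntegral.integral_of_le hle, intervalIntegral.integral_mul_const,
    integral_exp, Real.exp_log hn0, Real.exp_log (by positivity)]
  push_cast
  ring

theorem cnt_int (b z j q : ℕ) (hb : 1 ≤ b) (hj : 1 ≤ j) :
    (cnt b z j q : ℝ) =
      ∫ u in (Real.log ((j * b ^ (q - z) : ℕ) : ℝ))..(Real.log (((j + 1) * b ^ (q - z) : ℕ) : ℝ)),
        Real.exp u * ff q u := by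
  have hB : 1 ≤ b ^ (q - z) := Nat.one_le_pow _ _ hb
  have hle : j * b ^ (q - z) ≤ (j + 1) * b ^ (q - z) := Nat.mul_le_mul_right _ (by omega)
  have hffm := measurable_ff q
  have hff1 : ∀ x, |ff q x| ≤ 1 := fun x => by
    rw [abs_of_nonneg (ff_nonneg q x)]; exact ff_le_one q x
  have h := intervalIntegral.sum_integral_adjacent_intervals_Ico (μ := volume)
    (f := fun u => Real.exp u * ff q u) (a := fun n : ℕ => Real.log (n : ℝ))
    (m := j * b ^ (q - z)) (n := (j + 1) * b ^ (q - z)) hle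
    (fun k _ => ii_exp _ hffm hff1 _ _)
  rw [← h]
  unfold cnt
  rw [Finset.card_filter]
  push_cast
  refine Finset.sum_congr rfl fun n hn => ?_
  have hn1 : 1 ≤ n := by
    have := (Finset.mem_Ico.1 hn).1
    have h3 : 1 ≤ j * b ^ (q - z) := Nat.one_le_iff_ne_zero.2 (by positivity)
    omega
  have := int_piece q n hn1
  push_cast at this
  exact this.symm

/-- clipping -/
theorem clip_sum (F : ℝ → ℝ) (Y : ℝ) (I : ℕ) (x : ℝ) (hx : Y ≤ x) :
    F (min x (Y + I)) - F Y =
      ∑ i ∈ Finset.range I, (F (min (max x (Y + i)) (Y + i + 1)) - F (Y + i)) := by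
  induction I with
  | zero => simp [hx]
  | succ I ih =>
    rw [Finset.sum_range_succ, ← ih]
    have e : Y + ((I + 1 : ℕ) : ℝ) = Y + I + 1 := by push_cast; ring
    rw [e]
    rcases le_total x (Y + I) with h | h
    · rw [min_eq_left h, max_eq_right h, min_eq_left (show x ≤ Y + I + 1 by linarith),
        min_eq_left (show Y + (I : ℝ) ≤ Y + I + 1 by linarith)]
      ring
    · rw [min_eq_right h, max_eq_left h]
      ring

theorem clip_int (f : ℝ → ℝ) (hf : ∀ a b : ℝ, IntervalIntegrable f volume a b) (Y : ℝ) (I : ℕ)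
    (a b : ℝ) (ha : Y ≤ a) (hab : a ≤ b) (hb : b ≤ Y + I) :
    ∫ u in a..b, f u = ∑ i ∈ Finset.range I,
      ∫ u in (min (max a (Y + i)) (Y + i + 1))..(min (max b (Y + i)) (Y + i + 1)), f u := by
  have h1 := clip_sum (fun x => ∫ u in Y..x, f u) Y I a ha
  have h2 := clip_sum (fun x => ∫ u in Y..x, f u) Y I b (ha.trans hab)
  rw [min_eq_left hb] at h2
  rw [min_eq_left (hab.trans hb)] at h1
  have h3 : ∫ u in a..b, f u = (∫ u in Y..b, f u) - ∫ u in Y..a, f u :=
    (intervalIntegral.integral_interval_sub_left (hf _ _) (hf _ _)).symm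
  have h4 : (∫ u in Y..b, f u) - ∫ u in Y..a, f u =
      ((∫ u in Y..b, f u) - ∫ u in Y..Y, f u) - ((∫ u in Y..a, f u) - ∫ u in Y..Y, f u) := by ring
  rw [h3, h4, h1, h2, ← Finset.sum_sub_distrib]
  refine Finset.sum_congr rfl fun i _ => ?_
  have h5 := intervalIntegral.integral_interval_sub_left
    (hf Y (min (max b (Y + i)) (Y + i + 1))) (hf Y (min (max a (Y + i)) (Y + i + 1)))
  linarith

/-- monotone clipping -/
theorem clip_mono (Y : ℝ) : Monotone fun x : ℝ => min (max x Y) (Y + 1) := fun _ _ h =>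
  min_le_min (max_le_max h le_rfl) le_rfl

/-- one cell -/
theorem one_cell (q : ℕ) (a c θ E B C : ℝ) (hac : a ≤ c) (hB : 0 < B)
    (hBe : Real.exp c - Real.exp a = B) (hC : C = ∫ u in a..c, Real.exp u * ff q u)
    (hE : ∀ u, a ≤ u → u ≤ c → |LL q u - θ| ≤ E) :
    max 0 (|C / B - θ| - E) ≤ |∫ u in a..c, Real.exp u * gg q u| / B := by
  have hffm := measurable_ff q
  have hff1 : ∀ x, |ff q x| ≤ 1 := fun x => by
    rw [abs_of_nonneg (ff_nonneg q x)]; exact ff_le_one q x
  have hLm : Measurable (LL q) := (Pool.Agent.H305R2.LL_cont q).measurable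
  have hL1 : ∀ x, |LL q x| ≤ 1 := fun x => by
    rw [abs_of_nonneg (Pool.Agent.H305R2.LL_nonneg q x)]
    exact Pool.Agent.H305R2.LL_le_one q x
  have hgm := Pool.Agent.H305R2.measurable_gg q
  have hg1 := Pool.Agent.H305R2.abs_gg_le_one q
  have e1 : C = (∫ u in a..c, Real.exp u * gg q u) + ∫ u in a..c, Real.exp u * LL q u := by
    rw [hC, ← intervalIntegral.integral_add (ii_exp _ hgm hg1 _ _) (ii_exp _ hLm hL1 _ _)]
    refine intervalIntegral.integral_congr fun u _ => ?_
    unfold gg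
    ring
  have hexp : ∀ x y : ℝ, IntervalIntegrable (fun u => Real.exp u) volume x y := fun x y =>
    Real.continuous_exp.intervalIntegrable x y
  have hie : ∫ u in a..c, Real.exp u = B := by rw [integral_exp, hBe]
  have e2 : (∫ u in a..c, Real.exp u * LL q u) - B * θ =
      ∫ u in a..c, Real.exp u * (LL q u - θ) := by
    rw [← hie, ← intervalIntegral.integral_mul_const,
      ← intervalIntegral.integral_sub (ii_exp _ hLm hL1 _ _) ((hexp _ _).mul_const _)]
    refine intervalIntegral.integral_congr fun u _ => ?_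
    ring
  have e3 : |∫ u in a..c, Real.exp u * (LL q u - θ)| ≤ B * E := by
    have h1 : ‖∫ u in a..c, Real.exp u * (LL q u - θ)‖ ≤ ∫ u in a..c, Real.exp u * E := by
      refine intervalIntegral.norm_integral_le_of_norm_le hac ?_ ((hexp _ _).mul_const _)
      refine Eventually.of_forall fun u hu => ?_
      rw [Real.norm_eq_abs, abs_mul, abs_of_pos (Real.exp_pos u)]
      exact mul_le_mul_of_nonneg_left (hE u hu.1.le hu.2) (Real.exp_pos u).le
    rw [Real.norm_eq_abs, intervalIntegral.integral_mul_const, hie] at h1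
    exact h1
  have e4 : C / B - θ = (∫ u in a..c, Real.exp u * gg q u) / B +
      (∫ u in a..c, Real.exp u * (LL q u - θ)) / B := by
    rw [← e2, e1]
    field_simp
    ring
  have e5 : |C / B - θ| ≤ |∫ u in a..c, Real.exp u * gg q u| / B + E := by
    rw [e4]
    refine (abs_add_le _ _).trans (add_le_add ?_ ?_)
    · rw [abs_div, abs_of_pos hB]
    · rw [abs_div, abs_of_pos hB, div_le_iff₀ hB]
      linarith
  refine max_le (by positivity) (by linarith)

theorem fm (hfw : S_FW) : S_FM := by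
  intro b hb
  have hb1 : (1 : ℝ) < b := by exact_mod_cast hb
  have hb0 : (0 : ℝ) < b := by linarith
  obtain ⟨L, hLd⟩ : ∃ L : ℝ, L = Real.log b := ⟨_, rfl⟩
  have hL : 0 < L := by rw [hLd]; exact Real.log_pos hb1
  obtain ⟨κ, K2, hκ, hK2, P1, hP1⟩ := hfw (L / 2) (by positivity)
  obtain ⟨K1, hK1, hev⟩ := Pool.Agent.TH888.R.LL_rate_y hL
  obtain ⟨G, hGd⟩ : ∃ G : ℝ, G = Real.exp Real.eulerMascheroniConstant := ⟨_, rfl⟩
  have hG : 0 < G := by rw [hGd]; exact Real.exp_pos _
  rw [← hGd] at hev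
  refine ⟨min (κ / 4) (1 / 2), K1 + 1, lt_min (by positivity) (by norm_num), by positivity,
    fun m0 => ?_⟩
  obtain ⟨I, hI⟩ : ∃ I : ℕ, I = ⌈2 * (m0 : ℝ) * L⌉₊ := ⟨_, rfl⟩
  have hlogt : Tendsto (fun q : ℕ => Real.log q) atTop atTop :=
    Real.tendsto_log_atTop.comp tendsto_natCast_atTop_atTop
  have c1 : ∀ᶠ q : ℕ in atTop, (I : ℝ) * (b : ℝ) ^ m0 * K2 ≤ Real.log q :=
    hlogt.eventually_ge_atTop _
  have c2 : ∀ᶠ q : ℕ in atTop, 2 * (m0 : ℝ) ≤ (q : ℝ) :=
    tendsto_natCast_atTop_atTop.eventually_ge_atTop _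
  have c3 : ∀ᶠ q : ℕ in atTop, (m0 : ℝ) / (κ / 4) ≤ (q : ℝ) :=
    tendsto_natCast_atTop_atTop.eventually_ge_atTop _
  have c4 : ∀ᶠ q : ℕ in atTop, 2 * G * m0 / L * Real.log q ≤ (q : ℝ) := by
    have h1 := (Real.isLittleO_log_id_atTop).bound
      (show (0 : ℝ) < 1 / (2 * G * m0 / L + 1) by positivity)
    have h2 : ∀ᶠ x : ℝ in atTop, 2 * G * m0 / L * Real.log x ≤ x := by
      filter_upwards [h1, eventually_ge_atTop 1] with x hx hx1
      rw [Real.norm_of_nonneg (Real.log_nonneg hx1), id, Real.norm_of_nonneg (by linarith),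
        one_div_mul_eq_div, le_div_iff₀ (by positivity)] at hx
      have := Real.log_nonneg hx1
      linarith
    exact tendsto_natCast_atTop_atTop.eventually h2
  obtain ⟨P, hP⟩ := (hev.and (c1.and (c2.and (c3.and (c4.and
    ((eventually_ge_atTop P1).and (eventually_ge_atTop 3))))))).exists_forall_of_atTop
  refine ⟨P, fun q hq z hmz hz => ?_⟩
  obtain ⟨d1, d2, d3, d4, d5, d6, d7⟩ := hP q hq
  have hq3 : (3 : ℝ) ≤ q := by exact_mod_cast d7
  have hq0 : (0 : ℝ) < q := by linarith
  have hlog0 : 0 ≤ Real.log q := Real.log_nonneg (by linarith)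
  have hz1 : (z : ℝ) ≤ κ / 4 * q := hz.trans (mul_le_mul_of_nonneg_right (min_le_left _ _) hq0.le)
  have hz2 : (z : ℝ) ≤ 1 / 2 * q := hz.trans (mul_le_mul_of_nonneg_right (min_le_right _ _) hq0.le)
  have hzq : z ≤ q := by
    have : (z : ℝ) ≤ q := by linarith
    exact_mod_cast this
  rw [div_le_iff₀ (by positivity)] at d4
  rw [← hGd, ← hLd]
  -- the points
  obtain ⟨A, hA⟩ : ∃ A : ℕ → ℝ, A = fun j => Real.log ((j * b ^ (q - z) : ℕ) : ℝ) := ⟨_, rfl⟩
  obtain ⟨B, hB⟩ : ∃ B : ℝ, B = (b : ℝ) ^ (q - z) := ⟨_, rfl⟩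
  have hB0 : 0 < B := by rw [hB]; positivity
  obtain ⟨j0, hj0⟩ : ∃ j0 : ℕ, j0 = b ^ (z - m0) := ⟨_, rfl⟩
  obtain ⟨j1, hj1⟩ : ∃ j1 : ℕ, j1 = b ^ (z + m0) := ⟨_, rfl⟩
  have hj01 : 1 ≤ j0 := by rw [hj0]; exact Nat.one_le_pow _ _ (by omega)
  have hjj : j0 ≤ j1 := by rw [hj0, hj1]; exact Nat.pow_le_pow_right (by omega) (by omega)
  have hAmono : ∀ i j : ℕ, 1 ≤ i → i ≤ j → A i ≤ A j := by
    intro i j hi hij
    rw [hA]
    refine Real.log_le_log (by positivity) ?_
    exact_mod_cast Nat.mul_le_mul_right _ hij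
  have hA0 : A j0 = (q - m0) * L := by
    rw [hA, hLd, hj0]
    have : b ^ (z - m0) * b ^ (q - z) = b ^ (q - m0) := by
      rw [← pow_add]; congr 1; omega
    simp only [this]
    push_cast
    rw [Real.log_pow, Nat.cast_sub (by omega)]
  have hA1 : A j1 = (q + m0) * L := by
    rw [hA, hLd, hj1]
    have : b ^ (z + m0) * b ^ (q - z) = b ^ (q + m0) := by
      rw [← pow_add]; congr 1; omega
    simp only [this]
    push_cast
    rw [Real.log_pow]
    push_cast
    ring
  obtain ⟨Y, hY⟩ : ∃ Y : ℝ, Y = (q - m0) * L := ⟨_, rfl⟩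
  obtain ⟨θ, hθ⟩ : ∃ θ : ℝ, θ = G / L * (Real.log q / q) := ⟨_, rfl⟩
  have hq2 : (q : ℝ) / 2 ≤ q - m0 := by linarith
  have hYq : L / 2 * q ≤ Y := by
    rw [hY]
    have := mul_le_mul_of_nonneg_right hq2 hL.le
    linarith
  have hY1 : Y + I ≥ (q + m0) * L := by
    have : 2 * (m0 : ℝ) * L ≤ I := by rw [hI]; exact Nat.le_ceil _
    rw [hY]
    linarith
  -- the mean value
  have hLL : ∀ u, Y ≤ u → u ≤ (q + m0) * L → |LL q u - θ| ≤ (K1 + 1) / q := by
    intro u hu1 hu2
    have hu0 : 0 < u := by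
      have : 0 < L / 2 * q := by positivity
      linarith
    have h1 := d1 u (by linarith)
    have h2 : |G * Real.log q / u - θ| ≤ 1 / q := by
      have e : G * Real.log q / u - θ = G * Real.log q * ((q * L - u) / (u * (q * L))) := by
        rw [hθ]; field_simp
      have h3 : |q * L - u| ≤ m0 * L := by
        rw [abs_le]
        constructor
        · linarith
        · rw [hY] at hu1; linarith
      rw [e, abs_mul, abs_of_nonneg (by positivity), abs_div,
        abs_of_pos (by positivity : 0 < u * (q * L))]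
      have h4 : (L / 2 * q) * (q * L) ≤ u * (q * L) :=
        mul_le_mul_of_nonneg_right (hYq.trans hu1) (by positivity)
      have h5 : |q * L - u| / (u * (q * L)) ≤ (m0 * L) / ((L / 2 * q) * (q * L)) :=
        div_le_div₀ (by positivity) h3 (by positivity) h4
      refine (mul_le_mul_of_nonneg_left h5 (by positivity)).trans ?_
      have h6 : G * Real.log q * ((m0 * L) / ((L / 2 * q) * (q * L))) =
          (2 * G * m0 / L * Real.log q) / q ^ 2 := by
        field_simp
      rw [h6, div_le_div_iff₀ (by positivity) hq0]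
      nlinarith
    have h3 := abs_sub_le (LL q u) (G * Real.log q / u) θ
    have h4 : (K1 + 1) / (q : ℝ) = K1 / q + 1 / q := by ring
    rw [h4]
    linarith
  -- the sum over one window
  have hwin : ∀ i ∈ Finset.range I, ∑ j ∈ Finset.Ico j0 j1,
      |∫ u in (min (max (A j) (Y + i)) (Y + i + 1))..(min (max (A (j + 1)) (Y + i)) (Y + i + 1)),
        Real.exp u * gg q u| ≤ (b : ℝ) ^ (q + m0) * (K2 * (Real.log q / q ^ 2)) := by
    intro i hi
    have hi1 : (i : ℝ) < 2 * m0 * L := by
      rw [Finset.mem_range, hI] at hi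
      exact Nat.lt_ceil.1 hi
    have hmono : Monotone fun k => min (max (A (j0 + k)) (Y + i)) (Y + i + 1) := by
      intro k k' hk
      exact clip_mono (Y + i) (hAmono _ _ (by omega) (by omega))
    have h1 := hP1 q d6 (Y + i) (hYq.trans (by
      have : (0 : ℝ) ≤ i := by positivity
      linarith)) (j1 - j0)
      (fun k => min (max (A (j0 + k)) (Y + i)) (Y + i + 1)) hmono (by
        have h2 : ((j1 - j0 : ℕ) : ℝ) ≤ (b : ℝ) ^ (z + m0) := by
          have : j1 - j0 ≤ j1 := Nat.sub_le _ _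
          have h3 : ((j1 - j0 : ℕ) : ℝ) ≤ (j1 : ℝ) := by exact_mod_cast this
          rw [hj1] at h3
          push_cast at h3
          rw [← hj1] at h3
          exact h3
        refine h2.trans ?_
        have h4 : (b : ℝ) ^ (z + m0) = Real.exp ((z + m0 : ℕ) * L) := by
          rw [hLd, ← Real.log_pow, Real.exp_log (by positivity)]
        rw [h4]
        apply Real.exp_le_exp.2
        push_cast
        have h5 : κ * (L / 2 * q) ≤ κ * (Y + i) := mul_le_mul_of_nonneg_left (hYq.trans (by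
          have : (0 : ℝ) ≤ i := by positivity
          linarith)) hκ.le
        have h6 : ((z : ℝ) + m0) * L ≤ (κ / 4 * q + q * (κ / 4)) * L :=
          mul_le_mul_of_nonneg_right (by linarith) hL.le
        linarith)
      (le_min (le_max_right _ _) (by linarith)) (min_le_right _ _)
    rw [Finset.sum_Ico_eq_sum_range]
    have h2 : ∀ k ∈ Finset.range (j1 - j0),
        |∫ u in (min (max (A (j0 + k)) (Y + i)) (Y + i + 1))..(min (max (A (j0 + k + 1)) (Y + i))
          (Y + i + 1)), Real.exp u * gg q u| =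
        Real.exp (Y + i) * |∫ u in (min (max (A (j0 + k)) (Y + i)) (Y + i + 1))..(min
          (max (A (j0 + (k + 1))) (Y + i)) (Y + i + 1)), Real.exp (u - (Y + i)) * gg q u| := by
      intro k _
      rw [← abs_of_pos (Real.exp_pos (Y + i)), ← abs_mul,
        ← intervalIntegral.integral_const_mul]
      congr 1
      have : j0 + k + 1 = j0 + (k + 1) := by omega
      rw [this]
      refine intervalIntegral.integral_congr fun u _ => ?_
      rw [← mul_assoc, ← Real.exp_add]
      congr 2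
      ring
    rw [Finset.sum_congr rfl h2, ← Finset.mul_sum]
    have h3 : Real.exp (Y + i) ≤ (b : ℝ) ^ (q + m0) := by
      have h4 : (b : ℝ) ^ (q + m0) = Real.exp ((q + m0 : ℕ) * L) := by
        rw [hLd, ← Real.log_pow, Real.exp_log (by positivity)]
      rw [h4]
      apply Real.exp_le_exp.2
      push_cast
      rw [hY]
      linarith
    exact mul_le_mul h3 h1 (Finset.sum_nonneg fun _ _ => abs_nonneg _) (by positivity)
  -- one cell
  have hcell : ∀ j ∈ Finset.Ico j0 j1,
      max 0 (|(cnt b z j q : ℝ) / (b : ℝ) ^ (q - z) - G / L * (Real.log q / q)| -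
        (K1 + 1) / q) ≤ (∑ i ∈ Finset.range I,
      |∫ u in (min (max (A j) (Y + i)) (Y + i + 1))..(min (max (A (j + 1)) (Y + i)) (Y + i + 1)),
        Real.exp u * gg q u|) / B := by
    intro j hj
    rw [Finset.mem_Ico] at hj
    have hj1' : 1 ≤ j := by omega
    have g1 : Y ≤ A j := by
      rw [hY, ← hA0]; exact hAmono _ _ hj01 hj.1
    have g2 : A (j + 1) ≤ (q + m0) * L := by
      rw [← hA1]; exact hAmono _ _ (by omega) (by omega)
    have g3 : A j ≤ A (j + 1) := hAmono _ _ hj1' (by omega)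
    have h1 := one_cell q (A j) (A (j + 1)) θ ((K1 + 1) / q) B (cnt b z j q) g3 hB0 (by
      rw [hA]
      simp only
      rw [Real.exp_log (by positivity), Real.exp_log (by positivity), hB]
      push_cast
      ring) (by
        rw [hA]
        exact cnt_int b z j q (by omega) hj1') (fun u hu1 hu2 => hLL u (g1.trans hu1)
          (hu2.trans g2))
    rw [← hB, ← hθ]
    refine h1.trans ?_
    apply div_le_div_of_nonneg_right _ hB0.le
    rw [clip_int (fun u => Real.exp u * gg q u)
      (fun a c => ii_exp _ (Pool.Agent.H305R2.measurable_gg q)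
        (Pool.Agent.H305R2.abs_gg_le_one q) a c) Y I (A j) (A (j + 1)) g1 g3 (g2.trans hY1)]
    exact Finset.abs_sum_le_sum_abs _ _
  rw [← hj0, ← hj1]
  refine (Finset.sum_le_sum hcell).trans ?_
  rw [← Finset.sum_div, Finset.sum_comm, div_le_iff₀ hB0]
  refine (Finset.sum_le_sum hwin).trans ?_
  rw [Finset.sum_const, Finset.card_range, nsmul_eq_mul]
  have h1 : (b : ℝ) ^ (q + m0) = (b : ℝ) ^ z * B * (b : ℝ) ^ m0 := by
    rw [hB, ← pow_add, ← pow_add]
    congr 1
    omega
  rw [h1]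
  have h2 : (I : ℝ) * ((b : ℝ) ^ z * B * (b : ℝ) ^ m0 * (K2 * (Real.log q / q ^ 2))) =
      ((b : ℝ) ^ z * B) * (((I : ℝ) * (b : ℝ) ^ m0 * K2) * (Real.log q / q ^ 2)) := by ring
  have h3 : (b : ℝ) ^ z * (Real.log q ^ 2 / q ^ 2) * B =
      ((b : ℝ) ^ z * B) * (Real.log q * (Real.log q / q ^ 2)) := by ring
  rw [h2, h3]
  refine mul_le_mul_of_nonneg_left ?_ (by positivity)
  exact mul_le_mul_of_nonneg_right d2 (by positivity)

end Pool.Agent.N618.OW
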